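import Pool.Agent.W691.BG.Few

set_option autoImplicit false
set_option maxHeartbeats 4000000

/-! Zeros of the outer band in a dyadic block (adapted from `Pool.Agent.W916.BH.Cnt`). -/

namespace Pool.Agent.W691.BG

open Complex MeasureTheory Filter Topology
open Pool.Agent.W475.BG
open Pool.Agent.W475.BH (nz PP Bx ell Vh Gk)
open Pool.Agent.W916.BH (fin_zeros nz_union nz_empty nz_affine Wd Wd_bdd nz_split nz_windows Wd_scale
  card_le_len card_intervals)

theorem cnt (D : Dat) (hD : Ok D) (hY : S_SYM D) (hS : S_STIR D) (hE0 : S_EN D) (hC0 : S_CAL)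
    (hW : S_WIN D) (hR : S_CRU D) : S_CNT D := by
  classical
  intro κ X1 X2 hκ hX1 hX12 hX2
  have hd1 : (1 : ℝ) ≤ D.d := by exact_mod_cast hD.hd
  have hd0 : (0 : ℝ) < D.d := by linarith
  have hdκ : 0 < (D.d : ℝ) * κ := by positivity
  have hdm : 0 ≤ ((D.d : ℝ) - 1) * κ := mul_nonneg (by linarith) hκ.le
  obtain ⟨E, hE⟩ : ∃ E : ℝ, E = ell (D.d * κ) X1 X2 / (4 * Real.pi * κ) := ⟨_, rfl⟩
  have hE0' : 0 ≤ E := by
    rw [hE]
    have : 0 ≤ ell (D.d * κ) X1 X2 := le_max_left _ _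
    have hpi := Real.pi_pos
    positivity
  rw [← hE]
  obtain ⟨C, Tc, hC, _, hcru⟩ := hR κ hκ
  obtain ⟨hd, _, _⟩ := hY κ hκ
  obtain ⟨_, Ts, _, _, hstir⟩ := hS
  rw [Metric.tendsto_atTop]
  intro ε hε
  obtain ⟨ε', hε'⟩ : ∃ ε' : ℝ, ε' = ε / 4 := ⟨_, rfl⟩
  have hε'pos : 0 < ε' := by rw [hε']; positivity
  obtain ⟨g, hg⟩ : ∃ g : ℝ, g = min ((X1 - ((D.d : ℝ) - 1) * κ) / 2) 1 := ⟨_, rfl⟩
  have hgpos : 0 < g := by
    rw [hg]; exact lt_min (by linarith) one_pos
  have hg1 : g ≤ 1 := by rw [hg]; exact min_le_right _ _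
  have hg2 : g ≤ (X1 - ((D.d : ℝ) - 1) * κ) / 2 := by rw [hg]; exact min_le_left _ _
  obtain ⟨δ0, hδ0, hcal⟩ := hC0 (D.d * κ) X1 X2 g (ε' / D.d) hdκ hgpos hX12 (by linarith) hX2
    (by positivity)
  obtain ⟨δ, hδd⟩ : ∃ δ : ℝ, δ = min δ0 ((X1 - ((D.d : ℝ) - 1) * κ) / 2) := ⟨_, rfl⟩
  have hδ : 0 < δ := by rw [hδd]; exact lt_min hδ0 (by linarith)
  have hδ1 : δ ≤ δ0 := by rw [hδd]; exact min_le_left _ _
  have hδ2 : δ ≤ (X1 - ((D.d : ℝ) - 1) * κ) / 2 := by rw [hδd]; exact min_le_right _ _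
  obtain ⟨m, a, b, ω, Tw, hω, _, hab, hwin⟩ := hW κ δ 1 hκ hδ le_rfl
  have hnz : ∃ z0 : ℂ, XK D κ z0 ≠ 0 := by
    obtain ⟨T1, hT1⟩ : ∃ T1 : ℝ, T1 = max (max Tw Ts) 1 := ⟨_, rfl⟩
    have q1 : Tw ≤ T1 := by rw [hT1]; exact (le_max_left _ _).trans (le_max_left _ _)
    have q2 : Ts ≤ T1 := by rw [hT1]; exact (le_max_right _ _).trans (le_max_left _ _)
    have q3 : 1 ≤ T1 := by rw [hT1]; exact le_max_right _ _
    obtain ⟨_, w2, _⟩ := hwin T1 T1 q1 le_rfl (by linarith)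
    have w4 := w2 (((D.d * κ + 1 / 4 : ℝ)) : ℂ) (by
      rw [Complex.ofReal_re, abs_of_pos (by positivity)]) (by
      rw [Complex.ofReal_re, abs_of_pos (by positivity)]; linarith) (by
      rw [Complex.ofReal_im]; norm_num) (by
      rw [Complex.ofReal_im]; norm_num)
    have hHH : HH D (I * T1) ≠ 0 := (hstir T1 q2).1
    have hHp : 0 < ‖HH D (I * T1)‖ := norm_pos_iff.2 hHH
    refine ⟨_, norm_pos_iff.1 (lt_of_lt_of_le (mul_pos hHp (Real.exp_pos _)) w4)⟩
  obtain ⟨z0, hnz⟩ := hnz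
  obtain ⟨η, hη⟩ : ∃ η : ℝ, η = ε' / ((m + 1) * (C + E + 1)) := ⟨_, rfl⟩
  have hCE : 0 < C + E + 1 := by linarith
  have hηpos : 0 < η := by rw [hη]; positivity
  have hbad := fun i => few_bad D hE0 κ (a i) (b i) ω η hκ (hab i).1 (hab i).2.1 (hab i).2.2 hω hηpos
  choose Tb hTb using hbad
  have hlog : Tendsto (fun T : ℝ => Real.log T) atTop atTop := Real.tendsto_log_atTop
  have hlit : Tendsto (fun T : ℝ => Real.log T / T) atTop (𝓝 0) := by
    have := Real.isLittleO_log_id_atTop.tendsto_div_nhds_zero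
    simpa using this
  have hev : ∀ᶠ T : ℝ in atTop, Tc ≤ T ∧ Ts ≤ T ∧ Tw ≤ T ∧ (∀ i, Tb i ≤ T) ∧ 2 ≤ T ∧
      (C + E) * (Real.log T / T) ≤ ε' := by
    refine (eventually_ge_atTop _).and ((eventually_ge_atTop _).and ((eventually_ge_atTop _).and
      ((eventually_all.2 fun i => eventually_ge_atTop _).and ((eventually_ge_atTop _).and ?_))))
    have : Tendsto (fun T : ℝ => (C + E) * (Real.log T / T)) atTop (𝓝 ((C + E) * 0)) :=
      hlit.const_mul _
    rw [mul_zero] at this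
    exact (this.eventually (gt_mem_nhds hε'pos)).mono (fun T h => h.le)
  obtain ⟨T0, hT0⟩ := eventually_atTop.1 hev
  refine ⟨T0, fun T hT => ?_⟩
  obtain ⟨c1, c2, c3, c4, c5, c6⟩ := hT0 T hT
  have hTpos : 0 < T := by linarith
  obtain ⟨l, hl⟩ : ∃ l : ℝ, l = Real.log T := ⟨_, rfl⟩
  have hlpos : 0 < l := by rw [hl]; exact Real.log_pos (by linarith)
  obtain ⟨J, hJ⟩ : ∃ J : ℕ, J = ⌊T / l⌋₊ := ⟨_, rfl⟩
  have hJ1 : (J : ℝ) * l ≤ T := by
    have : (J : ℝ) ≤ T / l := by rw [hJ]; exact Nat.floor_le (by positivity)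
    rwa [le_div_iff₀ hlpos] at this
  have hJ2 : T < ((J : ℝ) + 1) * l := by
    have : T / l < (J : ℝ) + 1 := by rw [hJ]; exact Nat.lt_floor_add_one _
    rwa [div_lt_iff₀ hlpos] at this
  -- the numbers
  obtain ⟨nj, hnj⟩ : ∃ nj : ℕ → ℝ, ∀ j, nj j =
    (nz (XK D κ) (Wd (X1 * l) (X2 * l) (T + j * l) (T + j * l + l)) : ℝ) := ⟨_, fun _ => rfl⟩
  obtain ⟨nl, hnl⟩ : ∃ nl : ℝ, nl =
    (nz (XK D κ) (Wd (X1 * l) (X2 * l) (T + J * l) (2 * T)) : ℝ) := ⟨_, rfl⟩
  obtain ⟨nt, hnt⟩ : ∃ nt : ℝ, nt = (nz (XK D κ) (Wd (X1 * l) (X2 * l) T (2 * T)) : ℝ) := ⟨_, rfl⟩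
  have htot : nt = ∑ j ∈ Finset.range J, nj j + nl := by
    rw [hnt, hnl, nz_split hd hnz _ _ T (T + J * l) (2 * T) (by
      have : (0 : ℝ) ≤ J * l := by positivity
      linarith) (by linarith), nz_windows hd hnz _ _ T l hlpos.le J]
    push_cast
    congr 1
    exact Finset.sum_congr rfl (fun j _ => (hnj j).symm)
  have hcr : ∀ t0 t1 : ℝ, T ≤ t0 → t0 ≤ 2 * T → t1 ≤ t0 + 2 * l →
      (nz (XK D κ) (Wd (X1 * l) (X2 * l) t0 t1) : ℝ) ≤ C * l ^ 2 := by
    intro t0 t1 g1 g2 g3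
    rw [hl]
    refine hcru T t0 c1 g1 g2 _ ?_
    rintro z ⟨k1, k2, k3, k4⟩
    have k1 : X1 * l ≤ z.re := by rw [hl]; exact k1
    have k2 : z.re ≤ X2 * l := by rw [hl]; exact k2
    rw [← hl]
    refine ⟨?_, k3.le, k4.trans g3⟩
    rw [abs_le]
    have q1 : 0 ≤ X1 * l := mul_nonneg (by linarith) hlpos.le
    have q2 : X2 * l ≤ (D.d * κ + 1) * l := mul_le_mul_of_nonneg_right hX2 hlpos.le
    have q3 : 0 ≤ (D.d * κ + 1) * l := by positivity
    constructor
    · linarith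
    · linarith
  have hjT : ∀ j ∈ Finset.range J, T + (j : ℝ) * l ≤ 2 * T ∧ (j : ℝ) * l ≤ T := by
    intro j hj
    have h6 : (j : ℝ) ≤ J := by exact_mod_cast (Finset.mem_range.1 hj).le
    have h7 : (j : ℝ) * l ≤ J * l := by gcongr
    constructor <;> linarith
  have hnjC : ∀ j ∈ Finset.range J, nj j ≤ C * l ^ 2 := by
    intro j hj
    rw [hnj]
    have h6 : (0 : ℝ) ≤ j * l := by positivity
    exact hcr _ _ (by linarith) (hjT j hj).1 (by linarith)
  have hnlC : nl ≤ C * l ^ 2 := by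
    rw [hnl]
    have h6 : (0 : ℝ) ≤ J * l := by positivity
    exact hcr _ _ (by linarith) (by linarith) (by linarith)
  have hnl0 : 0 ≤ nl := by rw [hnl]; positivity
  have hnj0 : ∀ j, 0 ≤ nj j := by intro j; rw [hnj]; positivity
  -- good windows
  let good : ℕ → Prop := fun j => ∀ (i : Fin m) (s : ℝ), T + j * l - 4 * l ≤ s →
    s ≤ T + j * l + 5 * l → ∃ t lam : ℝ, s ≤ t ∧ t ≤ s + ω * l ∧
        a i * l ≤ lam ∧ lam ≤ b i * l ∧ T ^ (-(1 / 3) : ℝ) < ‖SS D κ lam t‖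
  have hgood : ∀ j ∈ Finset.range J, good j → |nj j - l ^ 2 * E| ≤ ε' * l ^ 2 := by
    intro j hj hg
    obtain ⟨t0, ht0⟩ : ∃ t0 : ℝ, t0 = T + j * l := ⟨_, rfl⟩
    have h6 : (0 : ℝ) ≤ j * l := by positivity
    have hT0a : T ≤ t0 := by rw [ht0]; linarith
    have hT0b : t0 ≤ 2 * T := by rw [ht0]; exact (hjT j hj).1
    obtain ⟨w1, _, w2⟩ := hwin T t0 c3 hT0a hT0b
    rw [← hl] at w1 w2
    have w3 := w2 (by
      intro i s hs1 hs2
      exact hg i s (by rw [← ht0]; exact hs1) (by rw [← ht0]; exact hs2))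
    have hHH : HH D (I * t0) ≠ 0 := (hstir t0 (by linarith)).1
    have hHp : 0 < ‖HH D (I * t0)‖ := norm_pos_iff.2 hHH
    have hdf : Differentiable ℂ (fun z : ℂ => XK D κ (I * t0 + (l : ℂ) * z) / HH D (I * t0)) := by
      have hg' : Differentiable ℂ (fun z : ℂ => I * t0 + (l : ℂ) * z) := by fun_prop
      exact (hd.comp hg').div_const _
    have hl2p : 0 < l ^ 2 := by positivity
    have hup : ∀ v : ℝ, l ^ 2 * (Vd D.d κ v + δ) ≤ D.d * l ^ 2 * (Vh (D.d * κ) v + δ0) := by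
      intro v
      have e : D.d * l ^ 2 * (Vh (D.d * κ) v + δ0) =
          l ^ 2 * (Vd D.d κ v + D.d * δ0) := by unfold Vd; ring
      rw [e]
      have : δ ≤ D.d * δ0 := hδ1.trans (le_mul_of_one_le_left hδ0.le hd1)
      gcongr
    have hlo : ∀ v : ℝ, D.d * l ^ 2 * (Vh (D.d * κ) v - δ0) ≤ l ^ 2 * (Vd D.d κ v - δ) := by
      intro v
      have e : D.d * l ^ 2 * (Vh (D.d * κ) v - δ0) =
          l ^ 2 * (Vd D.d κ v - D.d * δ0) := by unfold Vd; ring
      rw [e]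
      have : δ ≤ D.d * δ0 := hδ1.trans (le_mul_of_one_le_left hδ0.le hd1)
      gcongr
    have h7 := hcal (D.d * l ^ 2) (fun z : ℂ => XK D κ (I * t0 + (l : ℂ) * z) / HH D (I * t0))
      (by positivity) hdf ?_ ?_
    · rw [nz_affine hd (I * t0) (by exact_mod_cast hlpos.ne') hHH, Wd_scale X1 X2 t0 l hlpos] at h7
      have e1 : D.d * l ^ 2 * (ell (D.d * κ) X1 X2 / (4 * Real.pi * (D.d * κ))) = l ^ 2 * E := by
        rw [hE]
        have hpi := Real.pi_pos
        field_simp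
      have e2 : ε' / D.d * (D.d * l ^ 2) = ε' * l ^ 2 := by field_simp
      rw [e1, e2] at h7
      rw [hnj, ← ht0]
      exact h7
    · intro z z1 z2 z3
      show ‖XK D κ (I * t0 + (l : ℂ) * z) / HH D (I * t0)‖ ≤ _
      rw [norm_div, div_le_iff₀ hHp, mul_comm (Real.exp _)]
      refine (w1 z z1 z2 (by linarith)).trans ?_
      exact mul_le_mul_of_nonneg_left (Real.exp_le_exp.2 (hup _)) hHp.le
    · intro z z1 z2 z3 z4
      obtain ⟨w, hw1, hw2⟩ := w3 z (by linarith) (by linarith) z3 z4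
      refine ⟨w, hw1.trans hδ1, ?_⟩
      show _ ≤ ‖XK D κ (I * t0 + (l : ℂ) * w) / HH D (I * t0)‖
      rw [norm_div, le_div_iff₀ hHp, mul_comm (Real.exp _)]
      refine le_trans ?_ hw2
      exact mul_le_mul_of_nonneg_left (Real.exp_le_exp.2 (hlo _)) hHp.le
  -- bad windows
  obtain ⟨B, hB⟩ : ∃ B : Finset ℕ, B = (Finset.range J).filter (fun j => ¬ good j) := ⟨_, rfl⟩
  have hBc : (B.card : ℝ) * l ≤ m * (η * T) := by
    let Bi : Fin m → Finset ℕ := fun i => (Finset.range J).filter (fun j =>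
      ∃ s : ℝ, T + j * l - 4 * l ≤ s ∧ s ≤ T + j * l + 5 * l ∧
        ∀ t lam : ℝ, s ≤ t → t ≤ s + ω * l → a i * l ≤ lam → lam ≤ b i * l →
          ‖SS D κ lam t‖ ≤ T ^ (-(1 / 3) : ℝ))
    have hsub : B ⊆ Finset.univ.biUnion Bi := by
      intro j hj
      rw [hB, Finset.mem_filter] at hj
      obtain ⟨hj1, hj2⟩ := hj
      simp only [good, not_forall] at hj2
      obtain ⟨i, s, hs1, hs2, hs3⟩ := hj2
      rw [Finset.mem_biUnion]
      refine ⟨i, Finset.mem_univ i, ?_⟩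
      rw [Finset.mem_filter]
      refine ⟨hj1, s, hs1, hs2, ?_⟩
      intro t lam k1 k2 k3 k4
      by_contra hcon
      exact hs3 ⟨t, lam, k1, k2, k3, k4, not_le.1 hcon⟩
    have hcard : B.card ≤ ∑ i, (Bi i).card := (Finset.card_le_card hsub).trans Finset.card_biUnion_le
    have hBi : ∀ i, ((Bi i).card : ℝ) * l ≤ η * T := by
      intro i
      rw [hl]
      refine hTb i T (c4 i) (Bi i) ?_
      intro j hj
      rw [Finset.mem_filter] at hj
      rw [← hl]
      exact ⟨(hjT j hj.1).2, hj.2⟩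
    calc (B.card : ℝ) * l ≤ ((∑ i, (Bi i).card : ℕ) : ℝ) * l := by gcongr
      _ = ∑ i, ((Bi i).card : ℝ) * l := by push_cast; rw [Finset.sum_mul]
      _ ≤ ∑ i : Fin m, η * T := Finset.sum_le_sum (fun i _ => hBi i)
      _ = m * (η * T) := by rw [Finset.sum_const, Finset.card_univ, Fintype.card_fin, nsmul_eq_mul]
  -- the sum over the windows
  have hl2 : 0 < l ^ 2 := by positivity
  have hsum : |∑ j ∈ Finset.range J, nj j - J * (l ^ 2 * E)| ≤
      J * (ε' * l ^ 2) + B.card * ((C + E) * l ^ 2) := by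
    have e1 : ∑ j ∈ Finset.range J, nj j - J * (l ^ 2 * E) =
        ∑ j ∈ Finset.range J, (nj j - l ^ 2 * E) := by
      rw [Finset.sum_sub_distrib, Finset.sum_const, Finset.card_range, nsmul_eq_mul]
    rw [e1]
    calc |∑ j ∈ Finset.range J, (nj j - l ^ 2 * E)| ≤ ∑ j ∈ Finset.range J, |nj j - l ^ 2 * E| :=
          Finset.abs_sum_le_sum_abs _ _
      _ ≤ ∑ j ∈ Finset.range J, (ε' * l ^ 2 + if ¬ good j then (C + E) * l ^ 2 else 0) := by
          refine Finset.sum_le_sum (fun j hj => ?_)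
          by_cases hg : good j
          · rw [if_neg (not_not.2 hg), add_zero]
            exact hgood j hj hg
          · rw [if_pos hg, abs_le]
            have := hnjC j hj
            have h8 := hnj0 j
            have h9 : 0 ≤ ε' * l ^ 2 := by positivity
            have h10 : 0 ≤ l ^ 2 * E := by positivity
            have h11 : 0 ≤ C * l ^ 2 := by positivity
            have h12 : (C + E) * l ^ 2 = C * l ^ 2 + l ^ 2 * E := by ring
            constructor <;> linarith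
      _ = J * (ε' * l ^ 2) + B.card * ((C + E) * l ^ 2) := by
          rw [Finset.sum_add_distrib, Finset.sum_const, Finset.card_range, nsmul_eq_mul,
            ← Finset.sum_filter, Finset.sum_const, nsmul_eq_mul, hB]
  have hfin : |nt - T * l * E| ≤
      T * l * ε' + m * (η * T) * ((C + E) * l) + (C + E) * l ^ 2 := by
    have e1 : nt - T * l * E = (∑ j ∈ Finset.range J, nj j - J * (l ^ 2 * E)) + nl -
        (T - J * l) * (l * E) := by rw [htot]; ring
    rw [e1]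
    have e2 : |(∑ j ∈ Finset.range J, nj j - J * (l ^ 2 * E)) + nl - (T - J * l) * (l * E)| ≤
        |∑ j ∈ Finset.range J, nj j - J * (l ^ 2 * E)| + nl + (T - J * l) * (l * E) := by
      have h6 : 0 ≤ (T - J * l) * (l * E) := mul_nonneg (by linarith) (by positivity)
      refine (abs_sub _ _).trans ?_
      rw [abs_of_nonneg h6]
      have := abs_add_le (∑ j ∈ Finset.range J, nj j - J * (l ^ 2 * E)) nl
      rw [abs_of_nonneg hnl0] at this
      linarith
    have e3 : (T - J * l) * (l * E) ≤ l * (l * E) := by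
      have h5 : ((J : ℝ) + 1) * l = J * l + l := by ring
      rw [h5] at hJ2
      have h6 : 0 ≤ l * E := mul_nonneg hlpos.le hE0'
      have h7 : T - J * l ≤ l := by linarith
      exact mul_le_mul_of_nonneg_right h7 h6
    have e4 : (J : ℝ) * (ε' * l ^ 2) ≤ T * l * ε' := by
      have : (J : ℝ) * (ε' * l ^ 2) = (J * l) * (l * ε') := by ring
      rw [this]
      have h6 : (J * l) * (l * ε') ≤ T * (l * ε') := by gcongr
      linarith
    have e5 : (B.card : ℝ) * ((C + E) * l ^ 2) ≤ m * (η * T) * ((C + E) * l) := by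
      have : (B.card : ℝ) * ((C + E) * l ^ 2) = (B.card * l) * ((C + E) * l) := by ring
      rw [this]
      gcongr
    linarith
  -- conclusion
  have hset : {z : ℂ | X1 * Real.log T ≤ z.re ∧ z.re ≤ X2 * Real.log T ∧ T < z.im ∧
      z.im ≤ 2 * T} = Wd (X1 * l) (X2 * l) T (2 * T) := by
    rw [hl]; rfl
  rw [hset, ← hnt, ← hl, Real.dist_eq]
  have hTl : 0 < T * l := by positivity
  have e6 : nt / (T * l) - E = (nt - T * l * E) / (T * l) := by
    field_simp
  rw [e6, abs_div, abs_of_pos hTl, div_lt_iff₀ hTl]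
  refine lt_of_le_of_lt hfin ?_
  have e7 : (C + E) * l ^ 2 ≤ ε' * (T * l) := by
    have h6 : (C + E) * (l / T) ≤ ε' := by rw [hl]; exact c6
    have h7 : (C + E) * l ≤ ε' * T := by
      have : (C + E) * (l / T) = (C + E) * l / T := by ring
      rw [this, div_le_iff₀ hTpos] at h6
      exact h6
    have h8 : (C + E) * l ^ 2 = ((C + E) * l) * l := by ring
    have h9 : ε' * (T * l) = (ε' * T) * l := by ring
    rw [h8, h9]
    exact mul_le_mul_of_nonneg_right h7 hlpos.le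
  have e8 : (m : ℝ) * (η * T) * ((C + E) * l) ≤ ε' * (T * l) := by
    have h6 : (m : ℝ) * η * (C + E) ≤ ε' := by
      rw [hη]
      have h7 : (m : ℝ) * (ε' / ((m + 1) * (C + E + 1))) * (C + E) =
          ε' * ((m / (m + 1)) * ((C + E) / (C + E + 1))) := by
        field_simp
      rw [h7]
      have h8 : (m : ℝ) / (m + 1) ≤ 1 := by
        rw [div_le_one (by positivity)]; linarith
      have h9 : (C + E) / (C + E + 1) ≤ 1 := by
        rw [div_le_one hCE]; linarith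
      have h10 : (m : ℝ) / (m + 1) * ((C + E) / (C + E + 1)) ≤ 1 :=
        mul_le_one₀ h8 (by positivity) h9
      calc ε' * ((m : ℝ) / (m + 1) * ((C + E) / (C + E + 1))) ≤ ε' * 1 :=
            mul_le_mul_of_nonneg_left h10 hε'pos.le
        _ = ε' := mul_one _
    calc (m : ℝ) * (η * T) * ((C + E) * l) = ((m : ℝ) * η * (C + E)) * (T * l) := by ring
      _ ≤ ε' * (T * l) := by gcongr
  have e9 : ε * (T * l) = 4 * (ε' * (T * l)) := by rw [hε']; ring
  rw [e9]
  have e10 := mul_pos hε'pos hTl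
  linarith

end Pool.Agent.W691.BG
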